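import Pool.Agent.H91.FAS.A

/-!
# Row TOP of fas
-/

set_option autoImplicit false

open Pool.Agent.H30.FA

namespace Pool.Agent.H91.FAS

theorem prod3_sub {a1 a2 a3 b1 b2 b3 : ℂ} {s : ℝ} (h1 : ‖a1 - b1‖ ≤ s) (h2 : ‖a2 - b2‖ ≤ s)
    (h3 : ‖a3 - b3‖ ≤ s) (n1 : ‖a1‖ ≤ 1) (n2 : ‖a2‖ ≤ 1) (m2 : ‖b2‖ ≤ 1) (m3 : ‖b3‖ ≤ 1)
    (m1 : ‖b1‖ ≤ 1) :
    ‖a1 * a2 * a3 - b1 * b2 * b3‖ ≤ 3 * s := by
  have hs : 0 ≤ s := (norm_nonneg _).trans h1
  have e : a1 * a2 * a3 - b1 * b2 * b3 =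
      a1 * a2 * (a3 - b3) + a1 * (a2 - b2) * b3 + (a1 - b1) * b2 * b3 := by ring
  rw [e]
  refine (norm_add₃_le).trans ?_
  rw [norm_mul, norm_mul, norm_mul, norm_mul, norm_mul, norm_mul]
  have f1 : ‖a1‖ * ‖a2‖ * ‖a3 - b3‖ ≤ 1 * s :=
    mul_le_mul (mul_le_one₀ n1 (norm_nonneg _) n2) h3 (norm_nonneg _) zero_le_one
  have f2 : ‖a1‖ * ‖a2 - b2‖ * ‖b3‖ ≤ (1 * s) * 1 :=
    mul_le_mul (mul_le_mul n1 h2 (norm_nonneg _) zero_le_one) m3 (norm_nonneg _) (by linarith)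
  have f3 : ‖a1 - b1‖ * ‖b2‖ * ‖b3‖ ≤ (s * 1) * 1 :=
    mul_le_mul (mul_le_mul h1 m2 (norm_nonneg _) hs) m3 (norm_nonneg _) (by linarith)
  linarith

theorem prod3_norm {a1 a2 a3 : ℂ} (h1 : 1 / 2 ≤ ‖a1‖) (h2 : 1 / 2 ≤ ‖a2‖) (h3 : 1 / 2 ≤ ‖a3‖) :
    1 / 8 ≤ ‖a1 * a2 * a3‖ := by
  rw [norm_mul, norm_mul]
  have h4 : (1 / 2 : ℝ) * (1 / 2) ≤ ‖a1‖ * ‖a2‖ := mul_le_mul h1 h2 (by norm_num) (norm_nonneg _)
  have h5 : (1 / 2 : ℝ) * (1 / 2) * (1 / 2) ≤ ‖a1‖ * ‖a2‖ * ‖a3‖ :=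
    mul_le_mul h4 h3 (by norm_num) (by positivity)
  linarith

theorem exp_arg {z : ℂ} (hz : z ≠ 0) : Complex.exp (z.arg * Complex.I) = z / ‖z‖ := by
  have h0 : ((‖z‖ : ℝ) : ℂ) ≠ 0 := by
    have := norm_pos_iff.2 hz
    exact_mod_cast this.ne'
  rw [eq_div_iff h0, mul_comm]
  exact Complex.norm_mul_exp_arg_mul_I z

theorem norm_aux {p b b' p' r r' : ℂ} {ρ : ℝ} (hρ : 0 ≤ ρ)
    (h : p * b * b' * p' = (ρ : ℂ) * (r * (starRingEnd ℂ) r')) :
    ‖p‖ * ‖b‖ * ‖b'‖ * ‖p'‖ = ρ * (‖r‖ * ‖r'‖) := by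
  have := congrArg norm h
  rw [norm_mul, norm_mul, norm_mul, norm_mul, norm_mul, RCLike.norm_conj, Complex.norm_real,
    Real.norm_of_nonneg hρ] at this
  exact this

/-- small arguments -/
theorem small_of_exp {u σ : ℝ} (hu : |u| ≤ 3 / 2) (h : ‖Complex.exp (u * Complex.I) - 1‖ ≤ 16 * σ) :
    |u| ≤ 26 * σ := by
  rw [mul_comm (u : ℂ) Complex.I, Complex.norm_exp_I_mul_ofReal_sub_one] at h
  have h1 : |Real.sin (u / 2)| = Real.sin (|u| / 2) := by
    rcases le_total 0 u with h0 | h0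
    · rw [abs_of_nonneg h0, abs_of_nonneg]
      apply Real.sin_nonneg_of_nonneg_of_le_pi (by linarith)
      have := Real.pi_gt_three
      rw [abs_of_nonneg h0] at hu
      linarith
    · rw [abs_of_nonpos h0, abs_of_nonpos]
      · rw [neg_div, Real.sin_neg]
      · apply Real.sin_nonpos_of_nonpos_of_neg_pi_le (by linarith)
        have := Real.pi_gt_three
        rw [abs_of_nonpos h0] at hu
        linarith
  rw [norm_mul, Real.norm_eq_abs, Real.norm_eq_abs, h1, abs_of_pos (by norm_num : (0 : ℝ) < 2)] at h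
  have h2 : 2 / Real.pi * (|u| / 2) ≤ Real.sin (|u| / 2) := by
    apply Real.mul_le_sin (by positivity)
    have := Real.pi_gt_three
    linarith
  have h3 : 2 / Real.pi * |u| ≤ 16 * σ := by
    have : 2 / Real.pi * |u| = 2 * (2 / Real.pi * (|u| / 2)) := by ring
    rw [this]
    linarith
  have hpi := Real.pi_pos
  have hpi2 := Real.pi_lt_d2
  have h4 : 2 * |u| ≤ 16 * σ * Real.pi := by
    have : 2 / Real.pi * |u| * Real.pi = 2 * |u| := by field_simp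
    rw [← this]
    exact mul_le_mul_of_nonneg_right h3 hpi.le
  have hσ : 0 ≤ σ := by
    have : 0 ≤ 2 / Real.pi * |u| := by positivity
    linarith
  nlinarith

theorem pf_TOP (hTRA : T_TRA) (hAGS : T_AGS) : T_TOP := by
  intro κ₀ hκ
  obtain ⟨γ, hγ, hTRA⟩ := hTRA κ₀ hκ
  obtain ⟨s', hs', hAGS⟩ := hAGS γ (1 / 8) (1 / 8) hγ (by norm_num) (by norm_num)
  refine ⟨min 1 (s' / 3), lt_min one_pos (by positivity), min_le_left _ _, ?_⟩
  set s := min 1 (s' / 3) with hs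
  have hs3 : 3 * s ≤ s' := by
    have : s ≤ s' / 3 := min_le_right _ _
    linarith
  intro E _ _ K θ σ x y x' y' h h' hθ hσ hKσ hσs hxy hx' hy' hh hh' hov o1 o2 o3 hst hR
  have half : ∀ {z : ℂ}, κ₀ ≤ ‖z‖ ^ 2 → 1 / 2 ≤ ‖z‖ := by
    intro z hz
    by_contra hlt
    rw [not_le] at hlt
    have := norm_nonneg z
    nlinarith
  have one : ∀ {u v : E}, ‖u‖ = 1 → ‖v‖ = 1 → ‖(inner ℂ u v : ℂ)‖ ≤ 1 := by
    intro u v hu hv
    have := norm_inner_le_norm (𝕜 := ℂ) u v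
    rwa [hu, hv, one_mul] at this
  have sub_sym : ∀ u u' v : E, ‖(inner ℂ v u' : ℂ) - inner ℂ v u‖ =
      ‖(inner ℂ u' v : ℂ) - inner ℂ u v‖ := by
    intro u u' v
    rw [← inner_conj_symm v u', ← inner_conj_symm v u, ← map_sub, RCLike.norm_conj]
  have sub_sym2 : ∀ u u' v v' : E, ‖(inner ℂ v' u' : ℂ) - inner ℂ v u‖ =
      ‖(inner ℂ u' v' : ℂ) - inner ℂ u v‖ := by
    intro u u' v v'
    rw [← inner_conj_symm v' u', ← inner_conj_symm v u, ← map_sub, RCLike.norm_conj]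
  have hs0 : 0 ≤ s := hσ.trans hσs
  -- the four triangles
  set P : ℕ → ℂ := fun k => inner ℂ h (x k) * inner ℂ (x k) x' * inner ℂ x' h with hP
  set B : ℕ → ℂ := fun k => inner ℂ x' (x k) * inner ℂ (x k) y' * inner ℂ y' x' with hB
  set B' : ℕ → ℂ := fun k => inner ℂ (x k) (y k) * inner ℂ (y k) y' * inner ℂ y' (x k) with hB'
  set P' : ℕ → ℂ := fun k => inner ℂ h' y' * inner ℂ y' (y k) * inner ℂ (y k) h' with hP'
  set R : ℕ → ℂ := fun k => Rp h h' (x k) (y k) with hRdef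
  set R' : ℂ := Rp h h' x' y' with hR'
  have nP : ∀ k, k ≤ K → 1 / 8 ≤ ‖P k‖ := by
    intro k hk
    obtain ⟨a1, a2, a3, a4, a5, a6⟩ := hov k hk
    exact prod3_norm (half a1) (half a2) (by rw [norm_inner_symm]; exact half o1)
  have nB : ∀ k, k ≤ K → 1 / 8 ≤ ‖B k‖ := by
    intro k hk
    obtain ⟨a1, a2, a3, a4, a5, a6⟩ := hov k hk
    exact prod3_norm (by rw [norm_inner_symm]; exact half a2) (half a3)
      (by rw [norm_inner_symm]; exact half o2)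
  have nB' : ∀ k, k ≤ K → 1 / 8 ≤ ‖B' k‖ := by
    intro k hk
    obtain ⟨a1, a2, a3, a4, a5, a6⟩ := hov k hk
    exact prod3_norm (half a4) (half a5) (by rw [norm_inner_symm]; exact half a3)
  have nP' : ∀ k, k ≤ K → 1 / 8 ≤ ‖P' k‖ := by
    intro k hk
    obtain ⟨a1, a2, a3, a4, a5, a6⟩ := hov k hk
    exact prod3_norm (half o3) (by rw [norm_inner_symm]; exact half a5)
      (by rw [norm_inner_symm]; exact half a6)
  have nR : ∀ k, k ≤ K → 1 / 8 ≤ ‖R k‖ := by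
    intro k hk
    obtain ⟨a1, a2, a3, a4, a5, a6⟩ := hov k hk
    exact prod3_norm (half a1) (half a4) (by rw [norm_inner_symm]; exact half a6)
  have nR' : 1 / 8 ≤ ‖R'‖ :=
    prod3_norm (half o1) (half o2) (by rw [norm_inner_symm]; exact half o3)
  have tP : ∀ k, k ≤ K → -(1 - γ) * ‖P k‖ ≤ (P k).re := by
    intro k hk
    obtain ⟨a1, a2, a3, a4, a5, a6⟩ := hov k hk
    obtain ⟨u1, u2⟩ := hxy k hk
    exact hTRA E h (x k) x' hh u1 hx' a1 a2 (by rw [norm_inner_symm]; exact o1)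
  have tB : ∀ k, k ≤ K → -(1 - γ) * ‖B k‖ ≤ (B k).re := by
    intro k hk
    obtain ⟨a1, a2, a3, a4, a5, a6⟩ := hov k hk
    obtain ⟨u1, u2⟩ := hxy k hk
    exact hTRA E x' (x k) y' hx' u1 hy' (by rw [norm_inner_symm]; exact a2) a3
      (by rw [norm_inner_symm]; exact o2)
  have tB' : ∀ k, k ≤ K → -(1 - γ) * ‖B' k‖ ≤ (B' k).re := by
    intro k hk
    obtain ⟨a1, a2, a3, a4, a5, a6⟩ := hov k hk
    obtain ⟨u1, u2⟩ := hxy k hk
    exact hTRA E (x k) (y k) y' u1 u2 hy' a4 a5 (by rw [norm_inner_symm]; exact a3)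
  have tP' : ∀ k, k ≤ K → -(1 - γ) * ‖P' k‖ ≤ (P' k).re := by
    intro k hk
    obtain ⟨a1, a2, a3, a4, a5, a6⟩ := hov k hk
    obtain ⟨u1, u2⟩ := hxy k hk
    exact hTRA E h' y' (y k) hh' hy' u2 o3 (by rw [norm_inner_symm]; exact a5)
      (by rw [norm_inner_symm]; exact a6)
  have dP : ∀ k, k < K → ‖P (k + 1) - P k‖ ≤ s' := by
    intro k hk
    obtain ⟨b1, b2, b3, b4, b5, b6⟩ := hst k hk
    obtain ⟨u1, u2⟩ := hxy k hk.le
    obtain ⟨v1, v2⟩ := hxy (k + 1) hk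
    exact (prod3_sub b1 b2 (by rw [sub_self, norm_zero]; exact hs0) (one hh v1) (one v1 hx')
      (one u1 hx') (one hx' hh) (one hh u1)).trans hs3
  have dB : ∀ k, k < K → ‖B (k + 1) - B k‖ ≤ s' := by
    intro k hk
    obtain ⟨b1, b2, b3, b4, b5, b6⟩ := hst k hk
    obtain ⟨u1, u2⟩ := hxy k hk.le
    obtain ⟨v1, v2⟩ := hxy (k + 1) hk
    exact (prod3_sub (by rw [sub_sym]; exact b2) b3 (by rw [sub_self, norm_zero]; exact hs0)
      (one hx' v1) (one v1 hy') (one u1 hy') (one hy' hx') (one hx' u1)).trans hs3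
  have dB' : ∀ k, k < K → ‖B' (k + 1) - B' k‖ ≤ s' := by
    intro k hk
    obtain ⟨b1, b2, b3, b4, b5, b6⟩ := hst k hk
    obtain ⟨u1, u2⟩ := hxy k hk.le
    obtain ⟨v1, v2⟩ := hxy (k + 1) hk
    exact (prod3_sub b4 b5 (by rw [sub_sym]; exact b3)
      (one v1 v2) (one v2 hy') (one u2 hy') (one hy' u1) (one u1 u2)).trans hs3
  have dP' : ∀ k, k < K → ‖P' (k + 1) - P' k‖ ≤ s' := by
    intro k hk
    obtain ⟨b1, b2, b3, b4, b5, b6⟩ := hst k hk
    obtain ⟨u1, u2⟩ := hxy k hk.le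
    obtain ⟨v1, v2⟩ := hxy (k + 1) hk
    exact (prod3_sub (by rw [sub_self, norm_zero]; exact hs0) (by rw [sub_sym]; exact b5)
      (by rw [← sub_sym]; exact b6)
      (one hh' hy') (one hy' v2) (one hy' u2) (one u2 hh') (one hh' hy')).trans hs3
  have ne_of : ∀ {z : ℂ}, 1 / 8 ≤ ‖z‖ → z ≠ 0 := by
    intro z hz h0
    rw [h0, norm_zero] at hz
    norm_num at hz
  set l : ℕ → ℝ := fun k => (P k).arg + (B k).arg + (B' k).arg + (P' k).arg with hl
  have hl4 : ∀ k, |l k| ≤ 4 * Real.pi := by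
    intro k
    have g1 := Complex.abs_arg_le_pi (P k)
    have g2 := Complex.abs_arg_le_pi (B k)
    have g3 := Complex.abs_arg_le_pi (B' k)
    have g4 := Complex.abs_arg_le_pi (P' k)
    rw [abs_le] at g1 g2 g3 g4 ⊢
    constructor
    · show -(4 * Real.pi) ≤ (P k).arg + (B k).arg + (B' k).arg + (P' k).arg
      linarith [g1.1, g2.1, g3.1, g4.1]
    · show (P k).arg + (B k).arg + (B' k).arg + (P' k).arg ≤ 4 * Real.pi
      linarith [g1.2, g2.2, g3.2, g4.2]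
  have hldiff : ∀ k, k < K → |l (k + 1) - l k| ≤ 1 / 2 := by
    intro k hk
    have g1 := hAGS (P (k + 1)) (P k) (nP _ hk) (nP _ hk.le) (tP _ hk) (tP _ hk.le) (dP k hk)
    have g2 := hAGS (B (k + 1)) (B k) (nB _ hk) (nB _ hk.le) (tB _ hk) (tB _ hk.le) (dB k hk)
    have g3 := hAGS (B' (k + 1)) (B' k) (nB' _ hk) (nB' _ hk.le) (tB' _ hk) (tB' _ hk.le) (dB' k hk)
    have g4 := hAGS (P' (k + 1)) (P' k) (nP' _ hk) (nP' _ hk.le) (tP' _ hk) (tP' _ hk.le) (dP' k hk)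
    rw [abs_le] at g1 g2 g3 g4 ⊢
    have e : l (k + 1) - l k = ((P (k + 1)).arg - (P k).arg) + ((B (k + 1)).arg - (B k).arg) +
        ((B' (k + 1)).arg - (B' k).arg) + ((P' (k + 1)).arg - (P' k).arg) := by
      show ((P (k + 1)).arg + (B (k + 1)).arg + (B' (k + 1)).arg + (P' (k + 1)).arg) -
        ((P k).arg + (B k).arg + (B' k).arg + (P' k).arg) = _
      ring
    rw [e]
    constructor
    · linarith [g1.1, g2.1, g3.1, g4.1]
    · linarith [g1.2, g2.2, g3.2, g4.2]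
  -- the identity
  have hprod : ∀ k, P k * B k * B' k * P' k =
      ((‖(inner ℂ (x k) x' : ℂ)‖ ^ 2 * ‖(inner ℂ (x k) y' : ℂ)‖ ^ 2 *
        ‖(inner ℂ (y k) y' : ℂ)‖ ^ 2 : ℝ) : ℂ) * (R k * (starRingEnd ℂ) R') := by
    intro k
    have c1 : ∀ u v : E, ((‖(inner ℂ u v : ℂ)‖ ^ 2 : ℝ) : ℂ) = inner ℂ u v * inner ℂ v u := by
      intro u v
      rw [← inner_conj_symm v u, Complex.mul_conj, Complex.normSq_eq_norm_sq]
    rw [Complex.ofReal_mul, Complex.ofReal_mul, c1, c1, c1]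
    show (inner ℂ h (x k) * inner ℂ (x k) x' * inner ℂ x' h) *
      (inner ℂ x' (x k) * inner ℂ (x k) y' * inner ℂ y' x') *
      (inner ℂ (x k) (y k) * inner ℂ (y k) y' * inner ℂ y' (x k)) *
      (inner ℂ h' y' * inner ℂ y' (y k) * inner ℂ (y k) h') = _ *
      ((inner ℂ h (x k) * inner ℂ (x k) (y k) * inner ℂ (y k) h') *
        (starRingEnd ℂ) (inner ℂ h x' * inner ℂ x' y' * inner ℂ y' h'))
    rw [map_mul, map_mul, inner_conj_symm, inner_conj_symm, inner_conj_symm]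
    ring
  have hexp : ∀ k, k ≤ K → Complex.exp (l k * Complex.I) =
      (R k / ‖R k‖) * ((starRingEnd ℂ) R' / ‖R'‖) := by
    intro k hk
    obtain ⟨a1, a2, a3, a4, a5, a6⟩ := hov k hk
    have e1 : Complex.exp (l k * Complex.I) = (P k / ‖P k‖) * (B k / ‖B k‖) * (B' k / ‖B' k‖) *
        (P' k / ‖P' k‖) := by
      rw [← exp_arg (ne_of (nP k hk)), ← exp_arg (ne_of (nB k hk)), ← exp_arg (ne_of (nB' k hk)),
        ← exp_arg (ne_of (nP' k hk)), ← Complex.exp_add, ← Complex.exp_add, ← Complex.exp_add]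
      congr 1
      show (((P k).arg + (B k).arg + (B' k).arg + (P' k).arg : ℝ) : ℂ) * Complex.I = _
      push_cast
      ring
    set ρ : ℝ := ‖(inner ℂ (x k) x' : ℂ)‖ ^ 2 * ‖(inner ℂ (x k) y' : ℂ)‖ ^ 2 *
        ‖(inner ℂ (y k) y' : ℂ)‖ ^ 2 with hρ
    have hρ0 : 0 < ρ := by
      have g1 := half a2
      have g2 := half a3
      have g3 := half a5
      have g1' : 0 < ‖(inner ℂ (x k) x' : ℂ)‖ := by linarith
      have g2' : 0 < ‖(inner ℂ (x k) y' : ℂ)‖ := by linarith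
      have g3' : 0 < ‖(inner ℂ (y k) y' : ℂ)‖ := by linarith
      positivity
    have hp := hprod k
    have hn : ‖P k‖ * ‖B k‖ * ‖B' k‖ * ‖P' k‖ = ρ * (‖R k‖ * ‖R'‖) := by
      exact norm_aux hρ0.le hp
    have hnC : ((‖P k‖ : ℝ) : ℂ) * ‖B k‖ * ‖B' k‖ * ‖P' k‖ = (ρ : ℂ) * (‖R k‖ * ‖R'‖) := by
      exact_mod_cast congrArg (fun r : ℝ => (r : ℂ)) hn
    have z1 : ((‖R k‖ : ℝ) : ℂ) ≠ 0 := by
      have := nR k hk
      have : ‖R k‖ ≠ 0 := by linarith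
      exact_mod_cast this
    have z2 : ((‖R'‖ : ℝ) : ℂ) ≠ 0 := by
      have : ‖R'‖ ≠ 0 := by linarith
      exact_mod_cast this
    have z3 : (ρ : ℂ) ≠ 0 := by exact_mod_cast hρ0.ne'
    have e2 : (P k / ‖P k‖) * (B k / ‖B k‖) * (B' k / ‖B' k‖) * (P' k / ‖P' k‖) =
        (P k * B k * B' k * P' k) / (((‖P k‖ : ℝ) : ℂ) * ‖B k‖ * ‖B' k‖ * ‖P' k‖) := by
      rw [div_mul_div_comm, div_mul_div_comm, div_mul_div_comm]
    rw [e1, e2, hp, hnC, div_mul_div_comm, mul_div_mul_left _ _ z3]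
  have hU' : ‖(starRingEnd ℂ) R' / ‖R'‖‖ = 1 := by
    have : ‖R'‖ ≠ 0 := by linarith
    rw [norm_div, RCLike.norm_conj, Complex.norm_real, norm_norm, div_self this]
  have hstep : ∀ k, k < K → |l (k + 1) - l k - θ| ≤ 26 * σ := by
    intro k hk
    apply small_of_exp
    · have g1 := hldiff k hk
      rw [abs_le] at g1 hθ ⊢
      constructor <;> linarith [g1.1, g1.2, hθ.1, hθ.2]
    · have nθ : ‖Complex.exp (θ * Complex.I)‖ = 1 := Complex.norm_exp_ofReal_mul_I θ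
      have nl : ‖Complex.exp (l k * Complex.I)‖ = 1 := Complex.norm_exp_ofReal_mul_I (l k)
      have e1 : (Complex.exp (((l (k + 1) - l k - θ : ℝ) : ℂ) * Complex.I) - 1) *
          (Complex.exp (l k * Complex.I) * Complex.exp (θ * Complex.I)) =
          Complex.exp (l (k + 1) * Complex.I) -
            Complex.exp (θ * Complex.I) * Complex.exp (l k * Complex.I) := by
        have e0 : Complex.exp (((l (k + 1) - l k - θ : ℝ) : ℂ) * Complex.I) *
            (Complex.exp (l k * Complex.I) * Complex.exp (θ * Complex.I)) =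
            Complex.exp (l (k + 1) * Complex.I) := by
          rw [← Complex.exp_add, ← Complex.exp_add]
          congr 1
          push_cast
          ring
        rw [sub_mul, one_mul, e0, mul_comm (Complex.exp (l k * Complex.I))]
      have e2 : ‖Complex.exp (((l (k + 1) - l k - θ : ℝ) : ℂ) * Complex.I) - 1‖ =
          ‖Complex.exp (l (k + 1) * Complex.I) -
            Complex.exp (θ * Complex.I) * Complex.exp (l k * Complex.I)‖ := by
        rw [← e1, norm_mul, norm_mul, nθ, nl, mul_one, mul_one]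
      rw [e2, hexp (k + 1) hk, hexp k hk.le]
      have e3 : (R (k + 1) / ‖R (k + 1)‖) * ((starRingEnd ℂ) R' / ‖R'‖) -
          Complex.exp (θ * Complex.I) * ((R k / ‖R k‖) * ((starRingEnd ℂ) R' / ‖R'‖)) =
          (R (k + 1) / ‖R (k + 1)‖ - (Complex.exp (θ * Complex.I) * R k) /
            ‖Complex.exp (θ * Complex.I) * R k‖) * ((starRingEnd ℂ) R' / ‖R'‖) := by
        rw [norm_mul, nθ, one_mul]
        ring
      rw [e3, norm_mul, hU', mul_one]
      have g1 := unit_sub (a := R (k + 1)) (b := Complex.exp (θ * Complex.I) * R k)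
        (c := 1 / 8) (by norm_num) (ne_of (nR _ hk))
        (by rw [norm_mul, nθ, one_mul]; exact nR k hk.le)
      have g2 := hR k hk
      refine g1.trans ?_
      have g3 : ‖R (k + 1) - Complex.exp (θ * Complex.I) * R k‖ ≤ σ := g2
      rw [div_le_iff₀ (by norm_num)]
      linarith
  have htel : |l K - l 0 - K * θ| ≤ K * (26 * σ) := by
    have e1 : l K - l 0 - K * θ = ∑ k ∈ Finset.range K, (l (k + 1) - l k - θ) := by
      rw [Finset.sum_sub_distrib, Finset.sum_range_sub, Finset.sum_const, Finset.card_range,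
        nsmul_eq_mul]
    rw [e1]
    refine (Finset.abs_sum_le_sum_abs _ _).trans ?_
    calc ∑ k ∈ Finset.range K, |l (k + 1) - l k - θ| ≤ ∑ k ∈ Finset.range K, 26 * σ :=
          Finset.sum_le_sum fun k hk => hstep k (Finset.mem_range.1 hk)
      _ = K * (26 * σ) := by rw [Finset.sum_const, Finset.card_range, nsmul_eq_mul]
  have h26 : (K : ℝ) * (26 * σ) ≤ 26 := by nlinarith
  have g1 := hl4 K
  have g2 := hl4 0
  have hpi := Real.pi_lt_d2
  have g3 : (K : ℝ) * |θ| = |(K : ℝ) * θ| := by rw [abs_mul, Nat.abs_cast]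
  rw [g3]
  have g4 := htel.trans h26
  rw [abs_le] at g1 g2 g4 ⊢
  constructor <;> linarith [g1.1, g1.2, g2.1, g2.2, g4.1, g4.2]

end Pool.Agent.H91.FAS
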