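import Pool.Agent.H30.FA.TA

/-!
# Rows MID, RED, LOW2, IRR, TRA, AGS of fas
-/

set_option autoImplicit false

open Pool.Agent.H30.FA

namespace Pool.Agent.H91.FAS

open Classical in
theorem pf_MID (hBAS : T_BAS) : T_MID := by
  intro κ J E _ _ _ d C S s hs
  obtain ⟨hr, -⟩ := hBAS κ J E d C
  have h1 : ∑ a ∈ S, C.r a = ∑ k, C.t k * ∑ a ∈ S, ‖inner ℂ (C.e a) (C.x k)‖ ^ 2 := by
    rw [Finset.sum_congr rfl fun a _ => hr a, Finset.sum_comm]
    apply Finset.sum_congr rfl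
    intro k _
    rw [Finset.mul_sum]
  rw [h1, Finset.sum_div]
  apply Finset.sum_le_sum
  intro k _
  have hs2 : 0 < s ^ 2 := by positivity
  have hu : 0 ≤ ∑ a ∈ S, ‖inner ℂ (C.e a) (C.x k)‖ ^ 2 :=
    Finset.sum_nonneg fun a _ => by positivity
  have ht := C.t_nonneg k
  split_ifs with h
  · rw [le_div_iff₀ hs2]
    exact mul_le_mul_of_nonneg_left h.le ht
  · positivity

open Classical in
theorem pf_RED (hBAS : T_BAS) : T_RED := by
  intro κ J E _ _ _ d C a κr hκr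
  obtain ⟨hr, -⟩ := hBAS κ J E d C
  rw [hr a, sub_le_iff_le_add]
  have hsum : ∑ j, C.t j * ‖inner ℂ (C.e a) (C.x j)‖ ^ 2 ≤
      ∑ j, ((if κr ≤ ‖inner ℂ (C.e a) (C.x j)‖ ^ 2 then C.t j else 0) + C.t j * κr) := by
    apply Finset.sum_le_sum
    intro j _
    have ht := C.t_nonneg j
    have hea : ‖C.e a‖ = 1 := C.e.orthonormal.1 a
    have h2 : ‖inner ℂ (C.e a) (C.x j)‖ ≤ 1 := by
      have := norm_inner_le_norm (𝕜 := ℂ) (C.e a) (C.x j)
      rwa [hea, C.norm_x j, one_mul] at this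
    have h3 : ‖inner ℂ (C.e a) (C.x j)‖ ^ 2 ≤ 1 := pow_le_one₀ (norm_nonneg _) h2
    split_ifs with h
    · have h4 : C.t j * ‖inner ℂ (C.e a) (C.x j)‖ ^ 2 ≤ C.t j * 1 :=
        mul_le_mul_of_nonneg_left h3 ht
      have h5 : 0 ≤ C.t j * κr := mul_nonneg ht hκr
      linarith
    · rw [zero_add]
      exact mul_le_mul_of_nonneg_left (not_le.1 h).le ht
  rw [Finset.sum_add_distrib, ← Finset.sum_mul, C.t_sum, one_mul] at hsum
  exact hsum

open Classical in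
theorem pf_LOW2 (hBAS : T_BAS) : T_LOW2 := by
  intro κ J E _ _ _ d C δ s z hδ hs hz
  obtain ⟨-, -, -, -, -, hz1, -, -, -, hpar, -⟩ := hBAS κ J E d C
  set S : Finset (Fin d) := Finset.univ.filter fun a => C.r a < δ with hS
  have hs2 : 0 < s ^ 2 := by positivity
  have key : ∀ i, ∑ k, C.t k * ‖pin C.e S (z i) (C.x k)‖ ^ 2 ≤ 4 * δ := by
    intro i
    set w : E := ∑ a ∈ S, inner ℂ (C.e a) (z i) • C.e a with hw
    have h1 : ∀ y : E, pin C.e S (z i) y = inner ℂ w y := by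
      intro y
      unfold pin
      rw [hw, sum_inner]
      apply Finset.sum_congr rfl
      intro a _
      rw [inner_smul_left, inner_conj_symm]
    have h2 : ∀ b, inner ℂ w (C.e b) = if b ∈ S then inner ℂ (z i) (C.e b) else 0 := by
      intro b
      rw [hw, sum_inner]
      have h3 : ∀ a ∈ S, inner ℂ (inner ℂ (C.e a) (z i) • C.e a) (C.e b) =
          if a = b then inner ℂ (z i) (C.e b) else 0 := by
        intro a _
        rw [inner_smul_left, inner_conj_symm, C.e.inner_eq_ite]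
        split_ifs with h
        · rw [h, mul_one]
        · rw [mul_zero]
      rw [Finset.sum_congr rfl h3, Finset.sum_ite_eq']
    calc ∑ k, C.t k * ‖pin C.e S (z i) (C.x k)‖ ^ 2
        = ∑ k, C.t k * ‖inner ℂ w (C.x k)‖ ^ 2 :=
          Finset.sum_congr rfl fun k _ => by rw [h1]
      _ = ∑ b, C.r b * ‖inner ℂ w (C.e b)‖ ^ 2 := hz1 w
      _ ≤ ∑ b, δ * ‖inner ℂ (z i) (C.e b)‖ ^ 2 := by
          apply Finset.sum_le_sum
          intro b _
          rw [h2 b]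
          split_ifs with h
          · have h4 : C.r b < δ := by
              rw [hS, Finset.mem_filter] at h
              exact h.2
            exact mul_le_mul_of_nonneg_right h4.le (by positivity)
          · rw [norm_zero]
            have : 0 ≤ δ * ‖inner ℂ (z i) (C.e b)‖ ^ 2 := by positivity
            simpa using this
      _ = δ * ‖z i‖ ^ 2 := by rw [← Finset.mul_sum, ← hpar]
      _ ≤ δ * 2 ^ 2 := by
          apply mul_le_mul_of_nonneg_left _ hδ.le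
          exact pow_le_pow_left₀ (norm_nonneg _) (hz i) 2
      _ = 4 * δ := by ring
  have key2 : ∀ i, ∑ k, (if s < ‖pin C.e S (z i) (C.x k)‖ then C.t k else 0) ≤ 4 * δ / s ^ 2 := by
    intro i
    rw [le_div_iff₀ hs2]
    refine le_trans ?_ (key i)
    rw [Finset.sum_mul]
    apply Finset.sum_le_sum
    intro k _
    have ht := C.t_nonneg k
    split_ifs with h
    · exact mul_le_mul_of_nonneg_left (pow_le_pow_left₀ hs.le h.le 2) ht
    · rw [zero_mul]; positivity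
  calc ∑ i, ∑ k, (if s < ‖pin C.e S (z i) (C.x k)‖ then C.t i * C.t k else 0)
      = ∑ i, C.t i * ∑ k, (if s < ‖pin C.e S (z i) (C.x k)‖ then C.t k else 0) := by
        apply Finset.sum_congr rfl
        intro i _
        rw [Finset.mul_sum]
        apply Finset.sum_congr rfl
        intro k _
        split_ifs
        · rfl
        · rw [mul_zero]
    _ ≤ ∑ i, C.t i * (4 * δ / s ^ 2) :=
        Finset.sum_le_sum fun i _ => mul_le_mul_of_nonneg_left (key2 i) (C.t_nonneg i)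
    _ = 4 * δ / s ^ 2 := by rw [← Finset.sum_mul, C.t_sum, one_mul]

theorem pf_IRR : T_IRR := by
  intro Q
  set Z : Set ℝ := ⋃ m ∈ Finset.Icc 1 Q,
    {θ : ℝ | Complex.exp (θ * Complex.I) = Complex.exp (-(m : ℂ) * Complex.I)} with hZ
  have hcl : IsClosed Z := by
    rw [hZ]
    apply isClosed_biUnion_finset
    intro m _
    apply isClosed_eq
    · fun_prop
    · exact continuous_const
  have h0 : (0 : ℝ) ∉ Z := by
    intro h
    rw [hZ, Set.mem_iUnion₂] at h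
    obtain ⟨m, hm, h⟩ := h
    rw [Finset.mem_Icc] at hm
    have h1 : Complex.exp (((0 : ℝ) : ℂ) * Complex.I) = Complex.exp (-(m : ℂ) * Complex.I) := h
    rw [Complex.ofReal_zero, zero_mul, Complex.exp_zero] at h1
    obtain ⟨n, hn⟩ := Complex.exp_eq_one_iff.1 h1.symm
    have h2 := congrArg Complex.im hn
    simp at h2
    have hn0 : (n : ℝ) ≠ 0 := by
      intro h3
      rw [h3, zero_mul] at h2
      have : (m : ℝ) = 0 := by linarith
      have : m = 0 := by exact_mod_cast this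
      omega
    apply irrational_pi
    refine ⟨-(m : ℚ) / (2 * n), ?_⟩
    push_cast
    rw [div_eq_iff (by positivity)]
    linarith
  obtain ⟨τ, hτ, hb⟩ := Metric.isOpen_iff.1 hcl.isOpen_compl 0 h0
  refine ⟨τ, hτ, ?_⟩
  intro m hm1 hmQ θ hθ
  by_contra hlt
  rw [not_le] at hlt
  have h1 : θ ∈ Zᶜ := hb (by rw [Metric.mem_ball, dist_zero_right, Real.norm_eq_abs]; exact hlt)
  apply h1
  rw [hZ, Set.mem_iUnion₂]
  exact ⟨m, Finset.mem_Icc.2 ⟨hm1, hmQ⟩, hθ⟩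

theorem gram3 {E : Type} [NormedAddCommGroup E] [InnerProductSpace ℂ E] (a b c : E)
    (ha : ‖a‖ = 1) (hb : ‖b‖ = 1) (hc : ‖c‖ = 1) :
    0 ≤ 1 - ‖inner ℂ a b‖ ^ 2 - ‖inner ℂ b c‖ ^ 2 - ‖inner ℂ c a‖ ^ 2 +
      2 * (inner ℂ a b * inner ℂ b c * inner ℂ c a).re := by
  have haa : inner ℂ a a = (1 : ℂ) := by rw [inner_self_eq_norm_sq_to_K, ha]; simp
  set b' : E := b - inner ℂ a b • a with hb'
  set c' : E := c - inner ℂ a c • a with hc'
  have h1 : inner ℂ b' c' = inner ℂ b c - inner ℂ b a * inner ℂ a c := by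
    rw [hb', hc', inner_sub_left, inner_sub_right, inner_sub_right, inner_smul_left,
      inner_smul_right, inner_smul_left, inner_smul_right, haa, inner_conj_symm]
    ring
  have nrm : ∀ y : E, ‖y‖ = 1 → ‖y - inner ℂ a y • a‖ ^ 2 = 1 - ‖inner ℂ a y‖ ^ 2 := by
    intro y hy
    have h2 : (inner ℂ (y - inner ℂ a y • a) (y - inner ℂ a y • a) : ℂ) =
        1 - ((‖inner ℂ a y‖ ^ 2 : ℝ) : ℂ) := by
      rw [inner_sub_left, inner_sub_right, inner_sub_right, inner_smul_left,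
        inner_smul_right, inner_smul_left, inner_smul_right, haa, inner_self_eq_norm_sq_to_K, hy]
      have h3 : inner ℂ y a = (starRingEnd ℂ) (inner ℂ a y) := (inner_conj_symm y a).symm
      have h4 : ((‖inner ℂ a y‖ ^ 2 : ℝ) : ℂ) = inner ℂ a y * (starRingEnd ℂ) (inner ℂ a y) := by
        rw [Complex.mul_conj, Complex.normSq_eq_norm_sq]
      rw [h3, h4]
      simp
    have h5 : ‖y - inner ℂ a y • a‖ ^ 2 =
        RCLike.re (inner ℂ (y - inner ℂ a y • a) (y - inner ℂ a y • a) : ℂ) :=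
      (inner_self_eq_norm_sq _).symm
    rw [h5, h2]
    show (1 - ((‖inner ℂ a y‖ ^ 2 : ℝ) : ℂ)).re = _
    rw [Complex.sub_re, Complex.one_re, Complex.ofReal_re]
  have h2 := nrm b hb
  have h3 := nrm c hc
  have h4 := norm_inner_le_norm (𝕜 := ℂ) b' c'
  have h5 : ‖inner ℂ b' c'‖ ^ 2 ≤ (1 - ‖inner ℂ a b‖ ^ 2) * (1 - ‖inner ℂ a c‖ ^ 2) := by
    rw [← h2, ← h3, ← mul_pow]
    exact pow_le_pow_left₀ (norm_nonneg _) h4 2
  have h6 : ‖inner ℂ b' c'‖ ^ 2 = ‖inner ℂ b c‖ ^ 2 + ‖inner ℂ a b‖ ^ 2 * ‖inner ℂ a c‖ ^ 2 -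
      2 * (inner ℂ a b * inner ℂ b c * inner ℂ c a).re := by
    rw [h1, ← Complex.normSq_eq_norm_sq, Complex.normSq_sub, Complex.normSq_mul,
      Complex.normSq_eq_norm_sq, Complex.normSq_eq_norm_sq, Complex.normSq_eq_norm_sq,
      norm_inner_symm b a]
    congr 2
    rw [map_mul, inner_conj_symm, inner_conj_symm]
    ring_nf
  rw [h6] at h5
  rw [norm_inner_symm c a]
  nlinarith

theorem pf_TRA : T_TRA := by
  intro κ₀ hκ
  set s0 : ℝ := Real.sqrt κ₀ with hs0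
  have hsq : s0 ^ 2 = κ₀ := Real.sq_sqrt (by linarith)
  have hs1 : 1 / 2 < s0 := by
    rw [hs0]
    apply Real.lt_sqrt_of_sq_lt
    linarith
  have hnum : 0 < 2 * s0 ^ 3 + 3 * s0 ^ 2 - 1 := by
    have : 2 * s0 ^ 3 + 3 * s0 ^ 2 - 1 = (2 * s0 - 1) * (s0 + 1) ^ 2 := by ring
    rw [this]
    have : 0 < 2 * s0 - 1 := by linarith
    positivity
  have hden : 0 < 2 * s0 ^ 3 := by positivity
  refine ⟨min 1 ((2 * s0 ^ 3 + 3 * s0 ^ 2 - 1) / (2 * s0 ^ 3)),
    lt_min one_pos (div_pos hnum hden), ?_⟩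
  set γ := min 1 ((2 * s0 ^ 3 + 3 * s0 ^ 2 - 1) / (2 * s0 ^ 3)) with hγ
  have hγ1 : 0 ≤ 1 - γ := by have := min_le_left 1 ((2 * s0 ^ 3 + 3 * s0 ^ 2 - 1) / (2 * s0 ^ 3)); linarith
  have hγ2 : 1 - 3 * s0 ^ 2 ≤ 2 * (1 - γ) * s0 ^ 3 := by
    have h1 : γ ≤ (2 * s0 ^ 3 + 3 * s0 ^ 2 - 1) / (2 * s0 ^ 3) := min_le_right _ _
    rw [le_div_iff₀ hden] at h1
    linarith
  intro E _ _ a b c ha hb hc hab hbc hca
  have hg := gram3 a b c ha hb hc
  set p := ‖inner ℂ a b‖ with hp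
  set q := ‖inner ℂ b c‖ with hq
  set r := ‖inner ℂ c a‖ with hr
  have hp0 : s0 ≤ p := by rw [hs0]; exact Real.sqrt_le_left (norm_nonneg _) |>.2 hab
  have hq0 : s0 ≤ q := by rw [hs0]; exact Real.sqrt_le_left (norm_nonneg _) |>.2 hbc
  have hr0 : s0 ≤ r := by rw [hs0]; exact Real.sqrt_le_left (norm_nonneg _) |>.2 hca
  have hn : ‖inner ℂ a b * inner ℂ b c * inner ℂ c a‖ = p * q * r := by
    rw [norm_mul, norm_mul]
  rw [hn]
  have h3 : s0 ^ 3 ≤ p * q * r := by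
    have h4 : s0 * s0 ≤ p * q := mul_le_mul hp0 hq0 (by linarith) (by linarith)
    calc s0 ^ 3 = s0 * s0 * s0 := by ring
      _ ≤ p * q * r := mul_le_mul h4 hr0 (by linarith) (by nlinarith)
  have h4 : 2 * (1 - γ) * s0 ^ 3 ≤ 2 * (1 - γ) * (p * q * r) :=
    mul_le_mul_of_nonneg_left h3 (by linarith)
  have h5 : s0 ^ 2 ≤ p ^ 2 := pow_le_pow_left₀ (by linarith) hp0 2
  have h6 : s0 ^ 2 ≤ q ^ 2 := pow_le_pow_left₀ (by linarith) hq0 2
  have h7 : s0 ^ 2 ≤ r ^ 2 := pow_le_pow_left₀ (by linarith) hr0 2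
  linarith

theorem unit_sub {a b : ℂ} {c : ℝ} (hc : 0 < c) (ha : a ≠ 0) (hb : c ≤ ‖b‖) :
    ‖a / ‖a‖ - b / ‖b‖‖ ≤ 2 * ‖a - b‖ / c := by
  have hb0 : 0 < ‖b‖ := lt_of_lt_of_le hc hb
  have ha0 : 0 < ‖a‖ := norm_pos_iff.2 ha
  have ha' : ((‖a‖ : ℝ) : ℂ) ≠ 0 := by exact_mod_cast ha0.ne'
  have hb' : ((‖b‖ : ℝ) : ℂ) ≠ 0 := by exact_mod_cast hb0.ne'
  have h1 : a / ‖a‖ - b / ‖b‖ = (a - b) / ‖b‖ + a / ‖a‖ * (((‖b‖ - ‖a‖ : ℝ) : ℂ) / ‖b‖) := by
    push_cast
    field_simp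
    ring
  have h2 : ‖a / ‖a‖‖ = 1 := by
    rw [norm_div, Complex.norm_real, norm_norm, div_self ha0.ne']
  have h3 : |‖b‖ - ‖a‖| ≤ ‖a - b‖ := by
    rw [abs_sub_comm]; exact abs_norm_sub_norm_le a b
  rw [h1]
  refine (norm_add_le _ _).trans ?_
  rw [norm_mul, h2, one_mul, norm_div, norm_div, Complex.norm_real, Complex.norm_real,
    norm_norm, Real.norm_eq_abs]
  have h4 : ‖a - b‖ / ‖b‖ ≤ ‖a - b‖ / c := div_le_div_of_nonneg_left (norm_nonneg _) hc hb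
  have h5 : |‖b‖ - ‖a‖| / ‖b‖ ≤ ‖a - b‖ / c :=
    (div_le_div_of_nonneg_right h3 hb0.le).trans h4
  calc ‖a - b‖ / ‖b‖ + |‖b‖ - ‖a‖| / ‖b‖ ≤ ‖a - b‖ / c + ‖a - b‖ / c := add_le_add h4 h5
    _ = 2 * ‖a - b‖ / c := by ring

theorem pf_AGS : T_AGS := by
  intro γ c β hγ hc hβ
  set K : Set ℂ := {u : ℂ | ‖u‖ = 1 ∧ -(1 - γ) ≤ u.re} with hK
  have hKc : IsCompact K := by
    have h1 : K = Metric.sphere 0 1 ∩ {u : ℂ | -(1 - γ) ≤ u.re} := by
      ext u
      rw [hK]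
      simp
    rw [h1]
    exact (isCompact_sphere (0 : ℂ) 1).inter_right (isClosed_le continuous_const Complex.continuous_re)
  have hcont : ContinuousOn Complex.arg K := by
    intro u hu
    apply ContinuousAt.continuousWithinAt
    apply Complex.continuousAt_arg
    by_contra hs
    rw [Complex.mem_slitPlane_iff, not_or, not_lt, not_not] at hs
    have h1 : ‖u‖ ^ 2 = u.re ^ 2 + u.im ^ 2 := by
      rw [← Complex.normSq_eq_norm_sq, Complex.normSq_apply]; ring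
    rw [hu.1, hs.2] at h1
    have h2 := hu.2
    nlinarith [hs.1]
  have huc := hKc.uniformContinuousOn_of_continuous hcont
  rw [Metric.uniformContinuousOn_iff] at huc
  obtain ⟨δ, hδ, huc⟩ := huc β hβ
  refine ⟨c * δ / 4, by positivity, ?_⟩
  intro z w hz hw hzr hwr hzw
  have hz0 : 0 < ‖z‖ := lt_of_lt_of_le hc hz
  have hw0 : 0 < ‖w‖ := lt_of_lt_of_le hc hw
  have hmem : ∀ v : ℂ, 0 < ‖v‖ → -(1 - γ) * ‖v‖ ≤ v.re → v / ‖v‖ ∈ K := by
    intro v hv hvr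
    refine ⟨?_, ?_⟩
    · rw [norm_div, Complex.norm_real, norm_norm, div_self hv.ne']
    · rw [Complex.div_ofReal_re, le_div_iff₀ hv]
      exact hvr
  have harg : ∀ v : ℂ, 0 < ‖v‖ → Complex.arg (v / ‖v‖) = Complex.arg v := by
    intro v hv
    have : v / ‖v‖ = ((‖v‖⁻¹ : ℝ) : ℂ) * v := by
      push_cast
      rw [div_eq_inv_mul]
    rw [this, Complex.arg_real_mul _ (inv_pos.2 hv)]
  have hd : dist (z / ‖z‖) (w / ‖w‖) < δ := by
    rw [dist_eq_norm]
    have h1 := unit_sub hc (norm_pos_iff.1 hz0) hw (a := z) (b := w)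
    refine lt_of_le_of_lt h1 ?_
    rw [div_lt_iff₀ hc]
    nlinarith
  have h2 := huc _ (hmem z hz0 hzr) _ (hmem w hw0 hwr) hd
  rw [harg z hz0, harg w hw0, Real.dist_eq] at h2
  exact h2.le

end Pool.Agent.H91.FAS
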